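import Pool.Agent.Lib.MP_52bd65_al.Ins.Class

set_option autoImplicit false

namespace Pool.Agent.Lib.MP_52bd65_al.Ins

open Pool.Agent.Lib.MP_52bd65_al
open scoped Pointwise

section mean

variable {G : Type} {m : Set G → ℝ}

theorem mean_empty (hadd : ∀ A B : Set G, Disjoint A B → m (A ∪ B) = m A + m B) : m ∅ = 0 := by
  have := hadd ∅ ∅ (Set.disjoint_empty _)
  rw [Set.union_empty] at this
  linarith

theorem mean_mono (h0 : ∀ A, 0 ≤ m A) (hadd : ∀ A B : Set G, Disjoint A B → m (A ∪ B) = m A + m B)
    {A B : Set G} (h : A ⊆ B) : m A ≤ m B := by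
  have h1 := hadd A (B \ A) Set.disjoint_sdiff_right
  rw [Set.union_sdiff_cancel h] at h1
  linarith [h0 (B \ A)]

theorem mean_sum {ι : Type} (hadd : ∀ A B : Set G, Disjoint A B → m (A ∪ B) = m A + m B)
    (s : Finset ι) (A : ι → Set G)
    (hd : ∀ i ∈ s, ∀ j ∈ s, i ≠ j → Disjoint (A i) (A j)) :
    m (⋃ i ∈ s, A i) = ∑ i ∈ s, m (A i) := by
  classical
  induction s using Finset.induction_on with
  | empty => simpa using mean_empty hadd
  | insert a s ha ih =>
    rw [Finset.set_biUnion_insert, Finset.sum_insert ha, hadd, ih]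
    · intro i hi j hj hij
      exact hd i (Finset.mem_insert_of_mem hi) j (Finset.mem_insert_of_mem hj) hij
    · rw [Set.disjoint_iUnion₂_right]
      intro i hi
      exact hd a (Finset.mem_insert_self _ _) i (Finset.mem_insert_of_mem hi)
        (fun h => ha (h ▸ hi))

end mean

/-- Folner's theorem: a mean gives Folner sets (through a paradoxical decomposition) -/
theorem folS_of_amenable {G : Type} [Group G] (h : IsAmenable G) : FolS (⊤ : Subgroup G) := by
  classical
  obtain ⟨m, h0, h1, hadd, hinv⟩ := h
  by_contra hcon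
  unfold FolS at hcon
  push Not at hcon
  obtain ⟨S, -, ε, hε, hF⟩ := hcon
  set T : Finset G := insert 1 S with hT
  have hstep : ∀ F : Finset G, (1 + ε) * (F.card : ℝ) ≤ ((T * F).card : ℝ) := by
    intro F
    rcases F.eq_empty_or_nonempty with rfl | hne
    · simp
    · obtain ⟨s, hs, hs'⟩ := hF F hne (fun _ _ => trivial)
      have hsub : F ∪ ((F.filter (fun f => s * f ∉ F)).image (fun f => s * f)) ⊆ T * F := by
        intro x hx
        rw [Finset.mem_union] at hx
        rcases hx with hx | hx
        · exact Finset.mem_mul.2 ⟨1, Finset.mem_insert_self _ _, x, hx, one_mul x⟩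
        · obtain ⟨f, hf, rfl⟩ := Finset.mem_image.1 hx
          exact Finset.mul_mem_mul (Finset.mem_insert_of_mem hs) (Finset.mem_filter.1 hf).1
      have hdis : Disjoint F ((F.filter (fun f => s * f ∉ F)).image (fun f => s * f)) := by
        rw [Finset.disjoint_left]
        intro x hx hx'
        obtain ⟨f, hf, rfl⟩ := Finset.mem_image.1 hx'
        exact (Finset.mem_filter.1 hf).2 hx
      have h2 := Finset.card_le_card hsub
      rw [Finset.card_union_of_disjoint hdis,
        Finset.card_image_of_injective _ (mul_right_injective s)] at h2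
      have h3 : ((F.card + (F.filter (fun f => s * f ∉ F)).card : ℕ) : ℝ) ≤ ((T * F).card : ℝ) :=
        Nat.cast_le.2 h2
      rw [Nat.cast_add] at h3
      have h4 : ε * (F.card : ℝ) < ((F.filter (fun f => s * f ∉ F)).card : ℝ) := by
        convert hs'
      linarith
  have hpow : ∀ (k : ℕ) (F : Finset G), (1 + ε) ^ k * (F.card : ℝ) ≤ ((T ^ k * F).card : ℝ) := by
    intro k
    induction k with
    | zero => intro F; simp
    | succ k ih =>
      intro F
      have h2 := hstep (T ^ k * F)
      have h3 := ih F
      rw [pow_succ', pow_succ', mul_assoc T]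
      have h4 : (1 + ε) * ((1 + ε) ^ k * (F.card : ℝ)) ≤ (1 + ε) * ((T ^ k * F).card : ℝ) :=
        mul_le_mul_of_nonneg_left h3 (by linarith)
      linarith
  obtain ⟨k, hk⟩ := pow_unbounded_of_one_lt (2 : ℝ) (show 1 < 1 + ε by linarith)
  set U : Finset G := T ^ k with hU
  have hU2 : ∀ F : Finset G, 2 * F.card ≤ (U * F).card := by
    intro F
    have h2 := hpow k F
    have h3 : (2 : ℝ) * F.card ≤ (1 + ε) ^ k * F.card :=
      mul_le_mul_of_nonneg_right hk.le (Nat.cast_nonneg _)
    have h4 : ((2 * F.card : ℕ) : ℝ) ≤ ((U * F).card : ℝ) := by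
      push_cast
      linarith
    exact_mod_cast h4
  have hall := (Finset.all_card_le_biUnion_card_iff_exists_injective
    (fun p : G × Bool => U.image (fun u => u * p.1))).1 (by
      intro s
      have h2 : s ⊆ (s.image Prod.fst) ×ˢ (Finset.univ : Finset Bool) := by
        intro p hp
        rw [Finset.mem_product]
        exact ⟨Finset.mem_image_of_mem _ hp, Finset.mem_univ _⟩
      have h3 := Finset.card_le_card h2
      rw [Finset.card_product] at h3
      have h4 : (Finset.univ : Finset Bool).card = 2 := by decide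
      rw [h4] at h3
      have h5 : U * (s.image Prod.fst) ⊆ s.biUnion (fun p : G × Bool => U.image (fun u => u * p.1)) := by
        intro x hx
        obtain ⟨u, hu, y, hy, rfl⟩ := Finset.mem_mul.1 hx
        obtain ⟨p, hp, rfl⟩ := Finset.mem_image.1 hy
        exact Finset.mem_biUnion.2 ⟨p, hp, Finset.mem_image_of_mem _ hu⟩
      have h6 := Finset.card_le_card h5
      have h7 := hU2 (s.image Prod.fst)
      omega)
  obtain ⟨φ, hφi, hφ⟩ := hall
  have hφ' : ∀ p : G × Bool, ∃ u ∈ U, u * p.1 = φ p := by
    intro p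
    obtain ⟨u, hu, h⟩ := Finset.mem_image.1 (hφ p)
    exact ⟨u, hu, h⟩
  choose u hu hup using hφ'
  let A : Bool → G → Set G := fun b v => {g | u (g, b) = v}
  have hpart : ∀ b : Bool, ∑ v ∈ U, m (A b v) = 1 := by
    intro b
    rw [← mean_sum hadd, ← h1]
    · congr 1
      ext g
      simp only [Set.mem_iUnion, Set.mem_univ, iff_true]
      exact ⟨u (g, b), hu _, rfl⟩
    · intro v _ w _ hvw
      rw [Set.disjoint_left]
      intro g hg hg'
      exact hvw (hg.symm.trans hg')
  have htot : ∑ q ∈ (Finset.univ : Finset Bool) ×ˢ U, m ((fun h => q.2 * h) '' A q.1 q.2) ≤ 1 := by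
    rw [← mean_sum hadd, ← h1]
    · exact mean_mono h0 hadd (Set.subset_univ _)
    · rintro ⟨b, v⟩ _ ⟨c, w⟩ _ hne
      rw [Set.disjoint_left]
      rintro x ⟨g, hg, rfl⟩ ⟨g', hg', hx⟩
      simp only at hx hg hg'
      have e1 : v * g = φ (g, b) := by
        rw [← hup (g, b)]
        have : u (g, b) = v := hg
        rw [this]
      have e2 : w * g' = φ (g', c) := by
        rw [← hup (g', c)]
        have : u (g', c) = w := hg'
        rw [this]
      have e3 : ((g', c) : G × Bool) = (g, b) := hφi (by rw [← e1, ← e2, hx])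
      have e4 : g' = g := congrArg Prod.fst e3
      have e5 : c = b := congrArg Prod.snd e3
      subst e4
      subst e5
      apply hne
      have : v = w := by
        have h2 : u (g', c) = v := hg
        have h3 : u (g', c) = w := hg'
        rw [← h2, h3]
      rw [this]
  rw [Finset.sum_product] at htot
  simp only [hinv] at htot
  simp only [hpart] at htot
  norm_num at htot

theorem amenable_iff {G : Type} [Group G] (K : Subgroup G) : IsAmenable K ↔ FolS K := by
  constructor
  · intro h
    have h1 := (folS_of_amenable h).map K.subtype K.subtype_injective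
    have h2 : (⊤ : Subgroup K).map K.subtype = K := by
      rw [← MonoidHom.range_eq_map, Subgroup.range_subtype]
    rwa [h2] at h1
  · intro h
    exact h.top.mean

theorem cls_amenable : Cls (fun G [Group G] K => IsAmenable K) := by
  have h : (fun (G : Type) (_ : Group G) (K : Subgroup G) => IsAmenable K) =
      (fun (G : Type) (_ : Group G) (K : Subgroup G) => FolS K) := by
    funext G _ K
    exact propext (amenable_iff K)
  have h2 := cls_folS
  change Cls (fun (G : Type) (_ : Group G) (K : Subgroup G) => FolS K) at h2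
  change Cls (fun (G : Type) (_ : Group G) (K : Subgroup G) => IsAmenable K)
  rw [h]
  exact h2

/-- subgroups of amenable groups are amenable -/
theorem IsAmenable.of_injective {G H : Type} [Group G] [Group H] (f : G →* H)
    (hf : Function.Injective f) (h : IsAmenable H) : IsAmenable G := by
  classical
  obtain ⟨m, h0, h1, hadd, hinv⟩ := h
  -- an equivariant map from `H` to `G`
  let r : H → H := fun x => (Quotient.out (Quotient.mk (QuotientGroup.rightRel f.range) x))
  have hr : ∀ x, ∃ g : G, f g = x * (r x)⁻¹ := by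
    intro x
    have h2 : (QuotientGroup.rightRel f.range) (r x) x := Quotient.mk_out x
    rw [QuotientGroup.rightRel_apply] at h2
    obtain ⟨g, hg⟩ := h2
    exact ⟨g, hg⟩
  choose κ hκ using hr
  have heq : ∀ (g : G) (x : H), κ (f g * x) = g * κ x := by
    intro g x
    apply hf
    rw [hκ, map_mul, hκ]
    have h2 : r (f g * x) = r x := by
      have h3 : (Quotient.mk (QuotientGroup.rightRel f.range) (f g * x)) =
          (Quotient.mk (QuotientGroup.rightRel f.range) x) := by
        apply Quotient.sound
        show (QuotientGroup.rightRel f.range) _ _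
        rw [QuotientGroup.rightRel_apply]
        refine ⟨g⁻¹, ?_⟩
        rw [map_inv]
        group
      show Quotient.out _ = Quotient.out _
      rw [h3]
    rw [h2, mul_assoc]
  refine ⟨fun A => m (κ ⁻¹' A), fun A => h0 _, ?_, ?_, ?_⟩
  · show m (κ ⁻¹' Set.univ) = 1
    rw [Set.preimage_univ]
    exact h1
  · intro A B hAB
    show m (κ ⁻¹' (A ∪ B)) = _
    rw [Set.preimage_union]
    exact hadd _ _ (hAB.preimage κ)
  · intro g A
    show m (κ ⁻¹' ((fun h => g * h) '' A)) = m (κ ⁻¹' A)
    rw [← hinv (f g) (κ ⁻¹' A)]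
    congr 1
    ext x
    simp only [Set.mem_preimage, Set.mem_image]
    constructor
    · rintro ⟨y, hy, hyx⟩
      refine ⟨f g⁻¹ * x, ?_, ?_⟩
      · rw [heq, ← hyx]
        simpa using hy
      · rw [map_inv]
        group
    · rintro ⟨y, hy, rfl⟩
      exact ⟨κ y, hy, (heq g y).symm⟩

theorem IsAmenable.quot {G H : Type} [Group G] [Group H] (f : G →* H)
    (hf : Function.Surjective f) (h : IsAmenable G) : IsAmenable H := by
  obtain ⟨m, h0, h1, hadd, hinv⟩ := h
  refine ⟨fun A => m (f ⁻¹' A), fun A => h0 _, ?_, ?_, ?_⟩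
  · show m (f ⁻¹' Set.univ) = 1
    rw [Set.preimage_univ]
    exact h1
  · intro A B hAB
    show m (f ⁻¹' (A ∪ B)) = _
    rw [Set.preimage_union]
    exact hadd _ _ (hAB.preimage f)
  · intro g A
    obtain ⟨g, rfl⟩ := hf g
    show m (f ⁻¹' ((fun h => f g * h) '' A)) = m (f ⁻¹' A)
    rw [← hinv g (f ⁻¹' A)]
    congr 1
    ext x
    simp only [Set.mem_preimage, Set.mem_image]
    constructor
    · rintro ⟨y, hy, hyx⟩
      refine ⟨g⁻¹ * x, ?_, ?_⟩
      · rw [map_mul, map_inv, ← hyx]
        simpa using hy
      · group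
    · rintro ⟨y, hy, rfl⟩
      exact ⟨f y, hy, (map_mul f g y).symm⟩

end Pool.Agent.Lib.MP_52bd65_al.Ins
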