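import Pool.Agent.Lib.MP_52bd65_al.Limit

set_option autoImplicit false

namespace Pool.Agent.Lib.MP_52bd65_al.Ins

open Pool.Agent.Lib.MP_52bd65_al

/-- amenable groups: a finitely additive, left invariant probability mean on all subsets -/
def IsAmenable (G : Type) [Group G] : Prop :=
  ∃ m : Set G → ℝ, (∀ A, 0 ≤ m A) ∧ m Set.univ = 1 ∧
    (∀ A B : Set G, Disjoint A B → m (A ∪ B) = m A + m B) ∧
    (∀ (g : G) (A : Set G), m ((fun h => g * h) '' A) = m A)

/-- elementary amenable groups: the smallest class of groups which contains the finite and the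
abelian groups and is closed under subgroups, quotients, extensions and directed unions -/
inductive ElemAmenable : (G : Type) → [Group G] → Prop
  | finite (G : Type) [Group G] (h : Finite G) : ElemAmenable G
  | abelian (G : Type) [Group G] (h : ∀ a b : G, a * b = b * a) : ElemAmenable G
  | subgroup (G H : Type) [Group G] [Group H] (f : G →* H) (hf : Function.Injective f)
      (h : ElemAmenable H) : ElemAmenable G
  | quotient (G H : Type) [Group G] [Group H] (f : G →* H) (hf : Function.Surjective f)
      (h : ElemAmenable G) : ElemAmenable H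
  | extension (G : Type) [Group G] (N : Subgroup G) [N.Normal] (h1 : ElemAmenable N)
      (h2 : ElemAmenable (G ⧸ N)) : ElemAmenable G
  | union (G : Type) [Group G] (J : Type) (K : J → Subgroup G)
      (hd : ∀ i j, ∃ k, K i ≤ K k ∧ K j ≤ K k) (hc : ∀ g, ∃ i, g ∈ K i)
      (h : ∀ i, ElemAmenable (K i)) : ElemAmenable G

/-- classes of subgroups with the closure properties that the construction uses -/
structure Cls (P : ∀ (G : Type) [Group G], Subgroup G → Prop) : Prop where
  bot : ∀ (G : Type) [Group G], P G ⊥
  comm : ∀ (A : Type) [CommGroup A] (Q : Subgroup A), P A Q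
  of_local : ∀ (G : Type) [Group G] (K : Subgroup G),
    (∀ S : Finset G, (∀ s ∈ S, s ∈ K) → ∃ K' : Subgroup G, K' ≤ K ∧ (∀ s ∈ S, s ∈ K') ∧
      P G K') → P G K
  ext : ∀ (G A : Type) [Group G] [Group A] (K K' : Subgroup G) (Q : Subgroup A)
    (π : G → A), (∀ x ∈ K, ∀ y ∈ K, π (x * y) = π x * π y) →
    (∀ x ∈ K, π x = 1 → x ∈ K') → (∀ x ∈ K', x ∈ K ∧ π x = 1) →
    (∀ x ∈ K, π x ∈ Q) → (∀ q ∈ Q, ∃ x ∈ K, π x = q) → P G K' → P A Q → P G K
  map : ∀ (G G' : Type) [Group G] [Group G'] (K : Subgroup G) (f : G →* G'),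
    Function.Injective f → P G K → P G' (K.map f)

theorem cls_folS : Cls (fun G [Group G] K => FolS K) where
  bot _ _ := FolS.bot
  comm _ _ Q := FolS.comm Q
  of_local _ _ _ h := FolS.of_local h
  ext _ _ _ _ _ _ _ π h1 h2 h3 h4 h5 h6 h7 := FolS.ext π h1 h2 h3 h4 h5 h6 h7
  map _ _ _ _ _ f hf h := FolS.map h f hf

theorem cls_elem : Cls (fun G [Group G] K => ElemAmenable K) where
  bot G _ := ElemAmenable.finite _ inferInstance
  comm A _ Q := ElemAmenable.abelian _ (fun a b => Subtype.ext (mul_comm _ _))
  of_local G _ K h := by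
    classical
    refine ElemAmenable.union K (Finset K) (fun S => Subgroup.closure (S : Set K)) ?_ ?_ ?_
    · intro S T
      refine ⟨S ∪ T, Subgroup.closure_mono ?_, Subgroup.closure_mono ?_⟩
      · simp
      · simp
    · intro g
      refine ⟨{g}, Subgroup.subset_closure ?_⟩
      simp
    · intro S
      obtain ⟨K', h1, h2, h3⟩ := h (S.image (fun x : K => (x : G))) (by
        intro s hs
        obtain ⟨x, _, rfl⟩ := Finset.mem_image.1 hs
        exact x.2)
      have hle : Subgroup.closure (S : Set K) ≤ K'.comap K.subtype := by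
        rw [Subgroup.closure_le]
        intro x hx
        exact h2 _ (Finset.mem_image_of_mem _ hx)
      refine ElemAmenable.subgroup _ K'
        ((K.subtype.comp (Subgroup.closure (S : Set K)).subtype).codRestrict K'
          (fun x => hle x.2)) ?_ h3
      intro x y hxy
      have := congrArg Subtype.val hxy
      exact Subtype.ext (Subtype.ext this)
  ext G A _ _ K K' Q π h1 h2 h3 h4 h5 h6 h7 := by
    let ψ : K →* Q := MonoidHom.mk' (fun x => ⟨π x, h4 _ x.2⟩)
      (fun x y => Subtype.ext (h1 _ x.2 _ y.2))
    have hker : ∀ x : K, x ∈ ψ.ker ↔ π x = 1 := by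
      intro x
      rw [MonoidHom.mem_ker]
      exact ⟨fun h => congrArg Subtype.val h, fun h => Subtype.ext h⟩
    refine ElemAmenable.extension _ ψ.ker ?_ ?_
    · refine ElemAmenable.subgroup _ K'
        ((K.subtype.comp ψ.ker.subtype).codRestrict K' (fun x => ?_)) ?_ h6
      · exact h2 _ x.1.2 ((hker x.1).1 x.2)
      · intro x y hxy
        have := congrArg Subtype.val hxy
        exact Subtype.ext (Subtype.ext this)
    · exact ElemAmenable.subgroup _ Q (QuotientGroup.kerLift ψ)
        (QuotientGroup.kerLift_injective ψ) h7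
  map G G' _ _ K f hf h := by
    refine ElemAmenable.subgroup _ K (K.equivMapOfInjective f hf).symm.toMonoidHom ?_ h
    exact (K.equivMapOfInjective f hf).symm.injective

end Pool.Agent.Lib.MP_52bd65_al.Ins
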