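import Pool.Agent.Lib.MP_52bd65_al.Ins.Tower

set_option autoImplicit false

namespace Pool.Agent.Lib.MP_52bd65_al.Ins

open Pool.Agent.Lib.MP_52bd65_al
open Filter

theorem iG_add (N k : ℕ) (g : ℚ ≃o ℚ) : iG N g = iG (N + k) (EE^[k] g) := by
  induction k with
  | zero => rfl
  | succ k ih =>
    rw [ih, iG_succ, Function.iterate_succ_apply']
    rfl

theorem iG_lift {N M : ℕ} (h : N ≤ M) (g : ℚ ≃o ℚ) : ∃ g', iG N g = iG M g' := by
  obtain ⟨k, rfl⟩ := Nat.exists_eq_add_of_le h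
  exact ⟨_, iG_add N k g⟩

theorem iX_lift2 (x y : LX) : ∃ (M : ℕ) (a b : ℚ), x.1 = iX M a ∧ y.1 = iX M b := by
  obtain ⟨N1, q1, h1⟩ := x.2
  obtain ⟨N2, q2, h2⟩ := y.2
  obtain ⟨a, ha⟩ := LX_level (le_max_left N1 N2) q1
  obtain ⟨b, hb⟩ := LX_level (le_max_right N1 N2) q2
  exact ⟨max N1 N2, a, b, h1.trans ha, h2.trans hb⟩

/-- the point of level `N` -/
noncomputable def pX (N : ℕ) (q : ℚ) : LX := ⟨iX N q, N, q, rfl⟩

theorem pX_lt {N : ℕ} {q q' : ℚ} (h : q < q') : pX N q < pX N q' := iX_lt h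

theorem pX_surj (x : LX) : ∃ (N : ℕ) (q : ℚ), x = pX N q := by
  obtain ⟨N, q, h⟩ := x.2
  exact ⟨N, q, Subtype.ext h⟩

instance : Countable LX := by
  have : Function.Surjective (fun p : ℕ × ℚ => pX p.1 p.2) := by
    intro x
    obtain ⟨N, q, h⟩ := pX_surj x
    exact ⟨(N, q), h.symm⟩
  exact this.countable

instance : Nonempty LX := ⟨pX 0 0⟩

instance : NoMaxOrder LX := by
  refine ⟨fun x => ?_⟩
  obtain ⟨N, q, rfl⟩ := pX_surj x
  exact ⟨pX N (q + 1), pX_lt (lt_add_one q)⟩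

instance : NoMinOrder LX := by
  refine ⟨fun x => ?_⟩
  obtain ⟨N, q, rfl⟩ := pX_surj x
  exact ⟨pX N (q - 1), pX_lt (sub_one_lt q)⟩

instance : DenselyOrdered LX := by
  refine ⟨fun x y h => ?_⟩
  obtain ⟨M, a, b, ha, hb⟩ := iX_lift2 x y
  have hx : x = pX M a := Subtype.ext ha
  have hy : y = pX M b := Subtype.ext hb
  subst hx
  subst hy
  have hab : a < b := (iX_strictMono M).lt_iff_lt.1 h
  obtain ⟨c, hc1, hc2⟩ := exists_between hab
  exact ⟨pX M c, pX_lt hc1, pX_lt hc2⟩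

theorem exists_LX_iso : Nonempty (LX ≃o ℚ) := Order.iso_of_countable_dense _ _

theorem sm_level (N : ℕ) (g : ℚ ≃o ℚ) (x : LX) :
    ∃ (M : ℕ) (q : ℚ), iG N g • x.1 = iX M q := by
  obtain ⟨M, q, h⟩ := x.2
  obtain ⟨g', hg'⟩ := iG_lift (le_max_left N M) g
  obtain ⟨q', hq'⟩ := LX_level (le_max_right N M) q
  exact ⟨max N M, g' q', by rw [h, hg', hq', iG_smul]⟩

/-- the action of a group element of level `N` -/
noncomputable def sm (N : ℕ) (g : ℚ ≃o ℚ) (x : LX) : LX := ⟨iG N g • x.1, sm_level N g x⟩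

theorem sm_one (N : ℕ) (x : LX) : sm N 1 x = x := by
  apply Subtype.ext
  show iG N 1 • x.1 = x.1
  rw [map_one, one_smul]

theorem sm_mul (N : ℕ) (g h : ℚ ≃o ℚ) (x : LX) : sm N (g * h) x = sm N g (sm N h x) := by
  apply Subtype.ext
  show iG N (g * h) • x.1 = iG N g • (iG N h • x.1)
  rw [map_mul, mul_smul]

theorem sm_pX (N : ℕ) (g : ℚ ≃o ℚ) (q : ℚ) : sm N g (pX N q) = pX N (g q) :=
  Subtype.ext (iG_smul N g q)

theorem sm_strictMono (N : ℕ) (g : ℚ ≃o ℚ) : StrictMono (sm N g) := by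
  intro x y hxy
  obtain ⟨M, a, b, ha, hb⟩ := iX_lift2 x y
  obtain ⟨g', hg'⟩ := iG_lift (le_max_left N M) g
  obtain ⟨a', ha'⟩ := LX_level (le_max_right N M) a
  obtain ⟨b', hb'⟩ := LX_level (le_max_right N M) b
  have hxy' : x.1 < y.1 := hxy
  rw [ha, ha', hb, hb'] at hxy'
  show iG N g • x.1 < iG N g • y.1
  rw [ha, ha', hb, hb', hg', iG_smul, iG_smul]
  exact (iX_strictMono _) (g'.strictMono ((iX_strictMono _).lt_iff_lt.1 hxy'))

/-- the action by order automorphisms -/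
noncomputable def smIso (N : ℕ) (g : ℚ ≃o ℚ) : LX ≃o LX :=
  StrictMono.orderIsoOfRightInverse (sm N g) (sm_strictMono N g) (sm N g⁻¹)
    (fun x => by rw [← sm_mul, mul_inv_cancel, sm_one])

theorem smIso_apply (N : ℕ) (g : ℚ ≃o ℚ) (x : LX) : smIso N g x = sm N g x := rfl

/-- the direct limit, transported to the rationals -/
theorem exists_limit : ∃ (e : ℕ → ℚ → ℚ) (j : ℕ → (ℚ ≃o ℚ) →* (ℚ ≃o ℚ)),
    (∀ N, StrictMono (e N)) ∧ (∀ N q, e N q = e (N + 1) (psi q)) ∧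
    (∀ r, ∃ N q, e N q = r) ∧ (∀ N, Function.Injective (j N)) ∧
    (∀ N g, j N g = j (N + 1) (EE g)) ∧ (∀ N g q, j N g (e N q) = e N (g q)) := by
  obtain ⟨θ⟩ := exists_LX_iso
  have hj : ∀ N, ∃ jN : (ℚ ≃o ℚ) →* (ℚ ≃o ℚ), ∀ g r, jN g r = θ (sm N g (θ.symm r)) := by
    intro N
    refine ⟨⟨⟨fun g => (θ.symm.trans (smIso N g)).trans θ, ?_⟩, ?_⟩, fun g r => rfl⟩
    · refine RelIso.ext fun r => ?_
      show θ (sm N 1 (θ.symm r)) = r
      rw [sm_one, θ.apply_symm_apply]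
    · intro g h
      refine RelIso.ext fun r => ?_
      show θ (sm N (g * h) (θ.symm r)) = θ (sm N g (θ.symm (θ (sm N h (θ.symm r)))))
      rw [sm_mul, θ.symm_apply_apply]
  choose j hj using hj
  refine ⟨fun N q => θ (pX N q), j, ?_, ?_, ?_, ?_, ?_, ?_⟩
  · intro N q q' h
    exact θ.strictMono (pX_lt h)
  · intro N q
    have : pX N q = pX (N + 1) (psi q) := Subtype.ext (iX_succ N q)
    show θ (pX N q) = θ (pX (N + 1) (psi q))
    rw [this]
  · intro r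
    obtain ⟨N, q, h⟩ := pX_surj (θ.symm r)
    refine ⟨N, q, ?_⟩
    show θ (pX N q) = r
    rw [← h, θ.apply_symm_apply]
  · intro N g h hgh
    refine RelIso.ext fun q => ?_
    have h1 : j N g (θ (pX N q)) = j N h (θ (pX N q)) := by rw [hgh]
    rw [hj, hj, θ.symm_apply_apply, sm_pX, sm_pX] at h1
    have h2 := congrArg Subtype.val (θ.injective h1)
    exact (iX_strictMono N).injective h2
  · intro N g
    refine RelIso.ext fun r => ?_
    rw [hj, hj]
    congr 1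
    apply Subtype.ext
    show iG N g • _ = iG (N + 1) (EE g) • _
    rw [iG_succ]
  · intro N g q
    rw [hj, θ.symm_apply_apply, sm_pX]

/-- countable ordered sets embed equivariantly -/
theorem exists_embed (Y : Type) [LinearOrder Y] [Countable Y] :
    ∃ (i : Y ↪o ℚ) (φ : (Y ≃o Y) →* (ℚ ≃o ℚ)), ∀ h y, φ h (i y) = i (h y) := by
  rcases isEmpty_or_nonempty Y with hY | hY
  · refine ⟨⟨⟨fun y => (hY.false y).elim, fun y => (hY.false y).elim⟩,
      fun {y} => (hY.false y).elim⟩, 1, fun h y => (hY.false y).elim⟩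
  · have : Countable (Y ×ₗ ℚ) := inferInstanceAs (Countable (Y × ℚ))
    have : Nonempty (Y ×ₗ ℚ) := inferInstanceAs (Nonempty (Y × ℚ))
    have : NoMaxOrder (Y ×ₗ ℚ) := by
      refine ⟨fun x => ⟨toLex ((ofLex x).1, (ofLex x).2 + 1), ?_⟩⟩
      rw [Prod.Lex.lt_iff]
      exact Or.inr ⟨rfl, lt_add_one _⟩
    have : NoMinOrder (Y ×ₗ ℚ) := by
      refine ⟨fun x => ⟨toLex ((ofLex x).1, (ofLex x).2 - 1), ?_⟩⟩
      rw [Prod.Lex.lt_iff]
      exact Or.inr ⟨rfl, sub_one_lt _⟩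
    have : DenselyOrdered (Y ×ₗ ℚ) := by
      refine ⟨fun x y h => ?_⟩
      rw [Prod.Lex.lt_iff] at h
      rcases h with h | ⟨h1, h2⟩
      · refine ⟨toLex ((ofLex x).1, (ofLex x).2 + 1), ?_, ?_⟩
        · rw [Prod.Lex.lt_iff]
          exact Or.inr ⟨rfl, lt_add_one _⟩
        · rw [Prod.Lex.lt_iff]
          exact Or.inl h
      · obtain ⟨c, hc1, hc2⟩ := exists_between h2
        refine ⟨toLex ((ofLex x).1, c), ?_, ?_⟩
        · rw [Prod.Lex.lt_iff]
          exact Or.inr ⟨rfl, hc1⟩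
        · rw [Prod.Lex.lt_iff]
          exact Or.inr ⟨h1, hc2⟩
    obtain ⟨θ⟩ := Order.iso_of_countable_dense (Y ×ₗ ℚ) ℚ
    -- the action on the first coordinate
    have hmono : ∀ h : Y ≃o Y, StrictMono
        (fun x : Y ×ₗ ℚ => (toLex (h (ofLex x).1, (ofLex x).2) : Y ×ₗ ℚ)) := by
      intro h x y hxy
      rw [Prod.Lex.lt_iff] at hxy ⊢
      rcases hxy with hxy | ⟨h1, h2⟩
      · exact Or.inl (h.strictMono hxy)
      · exact Or.inr ⟨congrArg h h1, h2⟩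
    let A : (Y ≃o Y) → ((Y ×ₗ ℚ) ≃o (Y ×ₗ ℚ)) := fun h =>
      StrictMono.orderIsoOfRightInverse
        (fun x : Y ×ₗ ℚ => (toLex (h (ofLex x).1, (ofLex x).2) : Y ×ₗ ℚ)) (hmono h)
        (fun x : Y ×ₗ ℚ => (toLex (h.symm (ofLex x).1, (ofLex x).2) : Y ×ₗ ℚ))
        (fun x => by
          show toLex (h (h.symm (ofLex x).1), (ofLex x).2) = x
          rw [h.apply_symm_apply]
          rfl)
    have hA : ∀ h x, A h x = toLex (h (ofLex x).1, (ofLex x).2) := fun h x => rfl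
    refine ⟨OrderEmbedding.ofStrictMono (fun y => θ (toLex (y, 0))) ?_,
      ⟨⟨fun h => (θ.symm.trans (A h)).trans θ, ?_⟩, ?_⟩, ?_⟩
    · intro y z hyz
      apply θ.strictMono
      rw [Prod.Lex.lt_iff]
      exact Or.inl hyz
    · refine RelIso.ext fun r => ?_
      show θ (A 1 (θ.symm r)) = r
      rw [hA]
      exact θ.apply_symm_apply r
    · intro g h
      refine RelIso.ext fun r => ?_
      show θ (A (g * h) (θ.symm r)) = θ (A g (θ.symm (θ (A h (θ.symm r)))))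
      rw [θ.symm_apply_apply]
      rfl
    · intro h y
      show θ (A h (θ.symm (θ (toLex (y, 0))))) = θ (toLex (h y, 0))
      rw [θ.symm_apply_apply]
      rfl

end Pool.Agent.Lib.MP_52bd65_al.Ins
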