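import Pool.Agent.Lib.MP_52bd65_al.Ins.Amen
import Pool.Agent.Lib.MP_52bd65_al.Ins.Lim

set_option autoImplicit false

namespace Pool.Agent.Lib.MP_52bd65_al.Ins

open Pool.Agent.Lib.MP_52bd65_al

/-- dense subgroups of the automorphism group of the rationals (pointwise convergence) -/
def IsDense (Γ : Subgroup (ℚ ≃o ℚ)) : Prop :=
  ∀ (n : ℕ) (x y : Fin n → ℚ), StrictMono x → StrictMono y → ∃ g ∈ Γ, ∀ i, g (x i) = y i

theorem countable_closure {G : Type} [Group G] (S : Set G) (hS : S.Countable) :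
    Countable (Subgroup.closure S) := by
  have : Countable S := hS.to_subtype
  have h1 : (FreeGroup.lift (fun s : S => (s : G))).range = Subgroup.closure S := by
    rw [FreeGroup.range_lift_eq_closure, Subtype.range_coe]
  rw [← h1]
  exact (FreeGroup.lift (fun s : S => (s : G))).rangeRestrict_surjective.countable

/-- a small dense subgroup inside a dense subgroup, containing a given set -/
theorem exists_small_dense {Γ : Subgroup (ℚ ≃o ℚ)} (hΓ : IsDense Γ) (S : Set (ℚ ≃o ℚ))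
    (hS : S ⊆ Γ) :
    ∃ Δ : Subgroup (ℚ ≃o ℚ), Δ ≤ Γ ∧ S ⊆ Δ ∧ (S.Countable → Countable Δ) ∧ IsDense Δ := by
  classical
  have hch : ∀ p : (Σ n : ℕ, (Fin n → ℚ) × (Fin n → ℚ)), ∃ g : ℚ ≃o ℚ, g ∈ Γ ∧
      (StrictMono p.2.1 → StrictMono p.2.2 → ∀ i, g (p.2.1 i) = p.2.2 i) := by
    rintro ⟨n, x, y⟩
    by_cases h : StrictMono x ∧ StrictMono y
    · obtain ⟨g, hg, hgx⟩ := hΓ n x y h.1 h.2
      exact ⟨g, hg, fun _ _ => hgx⟩
    · exact ⟨1, one_mem _, fun h1 h2 => absurd ⟨h1, h2⟩ h⟩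
  choose G hG1 hG2 using hch
  refine ⟨Subgroup.closure (S ∪ Set.range G), ?_, ?_, ?_, ?_⟩
  · rw [Subgroup.closure_le]
    rintro g (hg | ⟨p, rfl⟩)
    · exact hS hg
    · exact hG1 p
  · exact fun g hg => Subgroup.subset_closure (Or.inl hg)
  · intro h
    exact countable_closure _ (h.union (Set.countable_range G))
  · intro n x y hx hy
    exact ⟨G ⟨n, x, y⟩, Subgroup.subset_closure (Or.inr ⟨_, rfl⟩), hG2 ⟨n, x, y⟩ hx hy⟩

/-- the main construction -/
theorem main (Y : Type) [LinearOrder Y] [Countable Y] (H : Subgroup (Y ≃o Y)) :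
    ∃ (Γ : Subgroup (ℚ ≃o ℚ)) (i : Y ↪o ℚ) (φ : H →* Γ),
      IsDense Γ ∧ (∀ (h : H) (y : Y), (φ h : ℚ ≃o ℚ) (i y) = i ((h : Y ≃o Y) y)) ∧
      Function.Injective φ ∧ (Countable H → Countable Γ) ∧
      (IsAmenable H → IsAmenable Γ) ∧ (ElemAmenable H → ElemAmenable Γ) := by
  classical
  obtain ⟨i0, φ0, h0⟩ := exists_embed Y
  obtain ⟨e, j, he, hes, hesurj, hji, hjs, hje⟩ := exists_limit
  have hφ0 : Function.Injective φ0 := by
    intro g h hgh
    refine RelIso.ext fun y => i0.injective ?_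
    rw [← h0, ← h0, hgh]
  set H0 : Subgroup (ℚ ≃o ℚ) := H.map φ0 with hH0
  -- levels
  have hjk : ∀ N k g, j N g = j (N + k) (EE^[k] g) := by
    intro N k g
    induction k with
    | zero => rfl
    | succ k ih =>
      rw [ih, hjs, Function.iterate_succ_apply']
      rfl
  have hek : ∀ N k q, e N q = e (N + k) (psi^[k] q) := by
    intro N k q
    induction k with
    | zero => rfl
    | succ k ih =>
      rw [ih, hes, Function.iterate_succ_apply']
      rfl
  have hTk : ∀ N k g, g ∈ TT H0 N → EE^[k] g ∈ TT H0 (N + k) := by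
    intro N k g hg
    induction k with
    | zero => exact hg
    | succ k ih =>
      rw [Function.iterate_succ_apply']
      exact EE_TT ih
  let L : ℕ → Subgroup (ℚ ≃o ℚ) := fun N => (TT H0 N).map (j N)
  have hL : ∀ N k, L N ≤ L (N + k) := by
    rintro N k _ ⟨g, hg, rfl⟩
    exact ⟨EE^[k] g, hTk N k g hg, (hjk N k g).symm⟩
  have hLm : Monotone L := by
    intro N M h
    obtain ⟨k, rfl⟩ := Nat.exists_eq_add_of_le h
    exact hL N k
  let Γ : Subgroup (ℚ ≃o ℚ) :=
    { carrier := {g | ∃ N, g ∈ L N}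
      one_mem' := ⟨0, one_mem _⟩
      mul_mem' := by
        rintro x y ⟨n, hn⟩ ⟨m, hm⟩
        exact ⟨max n m, mul_mem (hLm (le_max_left _ _) hn) (hLm (le_max_right _ _) hm)⟩
      inv_mem' := by
        rintro x ⟨n, hn⟩
        exact ⟨n, inv_mem hn⟩ }
  have hΓP : ∀ (P : ∀ (G : Type) [Group G], Subgroup G → Prop), Cls P → P _ H → P _ Γ := by
    intro P hP hPH
    have hP0 : P _ H0 := hP.map _ _ H φ0 hφ0 hPH
    have hPL : ∀ N, P _ (L N) := fun N => hP.map _ _ _ (j N) (hji N) (hP.TT hP0 N)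
    apply hP.of_local
    intro S hS
    have hch : ∀ s : ℚ ≃o ℚ, ∃ n : ℕ, s ∈ S → s ∈ L n := by
      intro s
      by_cases hs : s ∈ S
      · obtain ⟨n, hn⟩ := hS s hs
        exact ⟨n, fun _ => hn⟩
      · exact ⟨0, fun h => absurd h hs⟩
    choose N hN using hch
    exact ⟨L (S.sup N), fun g hg => ⟨_, hg⟩, fun s hs => hLm (Finset.le_sup hs) (hN s hs), hPL _⟩
  have hΓd : IsDense Γ := by
    intro n x y hx hy
    have hlev : ∀ r : ℚ, ∃ N q, e N q = r := hesurj
    choose lv pt hpt using hlev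
    obtain ⟨M, hM1, hM2⟩ : ∃ M, (∀ i, lv (x i) ≤ M) ∧ (∀ i, lv (y i) ≤ M) := by
      refine ⟨max (Finset.univ.sup fun i => lv (x i)) (Finset.univ.sup fun i => lv (y i)),
        ?_, ?_⟩
      · intro i
        exact (Finset.le_sup (f := fun i => lv (x i)) (Finset.mem_univ i)).trans
          (le_max_left _ _)
      · intro i
        exact (Finset.le_sup (f := fun i => lv (y i)) (Finset.mem_univ i)).trans
          (le_max_right _ _)
    have hup : ∀ r, lv r ≤ M → ∃ q, e M q = r := by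
      intro r hr
      obtain ⟨k, hk⟩ := Nat.exists_eq_add_of_le hr
      refine ⟨psi^[k] (pt r), ?_⟩
      rw [hk, ← hek, hpt]
    have hx' : ∀ i, ∃ q, e M q = x i := fun i => hup _ (hM1 i)
    have hy' : ∀ i, ∃ q, e M q = y i := fun i => hup _ (hM2 i)
    choose a ha using hx'
    choose b hb using hy'
    have ham : StrictMono a := by
      intro i k hik
      have h3 := hx hik
      rw [← ha, ← ha] at h3
      exact (he M).lt_iff_lt.1 h3
    have hbm : StrictMono b := by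
      intro i k hik
      have h3 := hy hik
      rw [← hb, ← hb] at h3
      exact (he M).lt_iff_lt.1 h3
    obtain ⟨g, hg, hgab⟩ := TT_trans H0 M n a b ham hbm
    refine ⟨j (M + n) g, ⟨M + n, g, hg, rfl⟩, ?_⟩
    intro i
    rw [← ha, ← hb, hek M n, hek M n (b i), hje, hgab]
  -- the image of the given group
  have himg : ∀ h : H, j 0 (φ0 h) ∈ Γ := fun h => ⟨0, φ0 h, ⟨h, h.2, rfl⟩, rfl⟩
  obtain ⟨Δ, hΔΓ, hSΔ, hΔc, hΔd⟩ := exists_small_dense hΓd
    (Set.range (fun h : H => j 0 (φ0 h))) (by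
      rintro _ ⟨h, rfl⟩
      exact himg h)
  have hinc : Function.Injective (Subgroup.inclusion hΔΓ) := Subgroup.inclusion_injective hΔΓ
  have heq : ∀ (h : H) (y : Y), j 0 (φ0 h) (e 0 (i0 y)) = e 0 (i0 ((h : Y ≃o Y) y)) := by
    intro h y
    rw [hje, h0]
  refine ⟨Δ, i0.trans (OrderEmbedding.ofStrictMono (e 0) (he 0)),
    (((j 0).comp φ0).comp H.subtype).codRestrict Δ (fun h => hSΔ ⟨h, rfl⟩), hΔd, ?_, ?_, ?_,
    ?_, ?_⟩
  · intro h y
    exact heq h y
  · intro g h hgh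
    have h1 := congrArg Subtype.val hgh
    have h2 : j 0 (φ0 g) = j 0 (φ0 h) := h1
    exact Subtype.ext (hφ0 (hji 0 h2))
  · intro hc
    exact hΔc (Set.countable_range _)
  · intro h
    exact IsAmenable.of_injective _ hinc (hΓP _ cls_amenable h)
  · intro h
    exact ElemAmenable.subgroup _ _ _ hinc (hΓP _ cls_elem h)

end Pool.Agent.Lib.MP_52bd65_al.Ins
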