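import Pool.Agent.Lib.MP_52bd65_al.Ins.Class

set_option autoImplicit false

namespace Pool.Agent.Lib.MP_52bd65_al.Ins

open Pool.Agent.Lib.MP_52bd65_al

variable {P : ∀ (G : Type) [Group G], Subgroup G → Prop}

theorem Cls.ext_comm (hP : Cls P) {G A : Type} [Group G] [CommGroup A] {K K' : Subgroup G}
    (π : G → A) (hmul : ∀ x ∈ K, ∀ y ∈ K, π (x * y) = π x * π y)
    (hker : ∀ x ∈ K, π x = 1 → x ∈ K') (hK' : ∀ x ∈ K', x ∈ K ∧ π x = 1)
    (hF : P G K') : P G K := by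
  have h1 : π 1 = 1 := by
    have := hmul 1 (one_mem _) 1 (one_mem _)
    rw [mul_one] at this
    exact (mul_eq_left.1 this.symm)
  have hinv : ∀ x ∈ K, π x⁻¹ = (π x)⁻¹ := by
    intro x hx
    have := hmul x⁻¹ (inv_mem hx) x hx
    rw [inv_mul_cancel, h1] at this
    exact eq_inv_of_mul_eq_one_left this.symm
  let Q : Subgroup A :=
    { carrier := {q | ∃ x ∈ K, π x = q}
      one_mem' := ⟨1, one_mem _, h1⟩
      mul_mem' := by
        rintro a b ⟨x, hx, rfl⟩ ⟨y, hy, rfl⟩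
        exact ⟨x * y, mul_mem hx hy, hmul x hx y hy⟩
      inv_mem' := by
        rintro a ⟨x, hx, rfl⟩
        exact ⟨x⁻¹, inv_mem hx, hinv x hx⟩ }
  exact hP.ext G A K K' Q π hmul hker hK' (fun x hx => ⟨x, hx, rfl⟩) (fun q hq => hq) hF
    (hP.comm A Q)

theorem Cls.WF (hP : Cls P) {Y : Type} [LinearOrder Y] (F : Finset Y) : P _ (WF F) := by
  classical
  induction F using Finset.induction_on_max with
  | empty =>
    have : MP_52bd65_al.WF (∅ : Finset Y) = ⊥ := by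
      rw [eq_bot_iff]
      rintro f ⟨h1, h2, h3⟩
      rw [Subgroup.mem_bot]
      refine RelIso.ext fun v => ext_ev fun y => ?_
      exact h3 v y (by simp)
    rw [this]
    exact hP.bot _
  | insert a F hmax ih =>
    have ha : a ∉ F := fun h => lt_irrefl _ (hmax a h)
    refine hP.ext_comm (A := Multiplicative (Colex (Y →₀ ℤ) → ℤ)) (K' := MP_52bd65_al.WF F)
      (fun f => Multiplicative.ofAdd (fun v => ev (f v) a - ev v a)) ?_ ?_ ?_ ih
    · rintro f ⟨h1, h2, h3⟩ g ⟨k1, k2, k3⟩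
      rw [← ofAdd_add]
      congr 1
      funext v
      show ev (f (g v)) a - ev v a = (ev (f v) a - ev v a) + (ev (g v) a - ev v a)
      have h4 := h1 (g v) v a (fun y' hy' => k3 v y' (by
        rw [Finset.mem_insert]
        rintro (h | h)
        · exact hy'.ne' h
        · exact lt_asymm hy' (hmax _ h)))
      linarith
    · rintro f ⟨h1, h2, h3⟩ h4
      refine ⟨h1, h2, ?_⟩
      intro v y hy
      by_cases hya : y = a
      · subst hya
        have h5 : (fun v => ev (f v) y - ev v y) = (0 : Colex (Y →₀ ℤ) → ℤ) :=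
          Multiplicative.ofAdd.injective h4
        have h6 := congrFun h5 v
        simp only [Pi.zero_apply] at h6
        linarith
      · exact h3 v y (by rw [Finset.mem_insert]; tauto)
    · rintro f ⟨h1, h2, h3⟩
      refine ⟨⟨h1, h2, h3.mono (Finset.subset_insert _ _)⟩, ?_⟩
      have h5 : (fun v => ev (f v) a - ev v a) = (0 : Colex (Y →₀ ℤ) → ℤ) := by
        funext v
        rw [h3 v a ha]
        simp
      rw [h5]
      rfl

theorem Cls.WW (hP : Cls P) (Y : Type) [LinearOrder Y] : P _ (WW Y) := by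
  classical
  apply hP.of_local
  intro S hS
  have hch : ∀ s : Colex (Y →₀ ℤ) ≃o Colex (Y →₀ ℤ), ∃ F : Finset Y, s ∈ S →
      s ∈ MP_52bd65_al.WF F := by
    intro s
    by_cases hs : s ∈ S
    · obtain ⟨F, hF⟩ := hS s hs
      exact ⟨F, fun _ => hF⟩
    · exact ⟨∅, fun h => absurd h hs⟩
  choose Φ hΦ using hch
  refine ⟨MP_52bd65_al.WF (S.biUnion Φ), fun f hf => ⟨_, hf⟩, ?_, hP.WF _⟩
  intro s hs
  obtain ⟨h1, h2, h3⟩ := hΦ s hs
  exact ⟨h1, h2, h3.mono (Finset.subset_biUnion_of_mem Φ hs)⟩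

theorem Cls.WH (hP : Cls P) : P _ WH := hP.map _ _ _ cj cj_injective (hP.WW ℚ)

theorem Cls.stp (hP : Cls P) {K : Subgroup (ℚ ≃o ℚ)} (hK : P _ K) : P _ (stp K) := by
  have hch : ∀ x : ℚ ≃o ℚ, ∃ g : ℚ ≃o ℚ, x ∈ MP_52bd65_al.stp K → g ∈ K ∧
      ∃ w ∈ MP_52bd65_al.WH, x = w * EE g := by
    intro x
    by_cases hx : x ∈ MP_52bd65_al.stp K
    · obtain ⟨w, hw, g, hg, h⟩ := hx
      exact ⟨g, fun _ => ⟨hg, w, hw, h⟩⟩
    · exact ⟨1, fun h => absurd h hx⟩
  choose π hπ using hch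
  refine hP.ext _ _ _ MP_52bd65_al.WH K π ?_ ?_ ?_ ?_ ?_ hP.WH hK
  · intro x hx y hy
    obtain ⟨_, w, hw, h1⟩ := hπ x hx
    obtain ⟨_, w', hw', h2⟩ := hπ y hy
    obtain ⟨_, w'', hw'', h3⟩ := hπ (x * y) (mul_mem hx hy)
    refine (stp_unique (w := w * (EE (π x) * w' * (EE (π x))⁻¹)) (w' := w'')
      (mul_mem hw (EE_norm _ hw')) hw'' ?_).symm
    rw [← h3]
    conv_rhs => rw [h1, h2]
    rw [map_mul]
    group
  · intro x hx h
    obtain ⟨_, w, hw, h1⟩ := hπ x hx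
    rw [h, map_one, mul_one] at h1
    rw [h1]
    exact hw
  · intro x hx
    have hx' : x ∈ MP_52bd65_al.stp K := ⟨x, hx, 1, one_mem _, by rw [map_one, mul_one]⟩
    refine ⟨hx', ?_⟩
    obtain ⟨_, w, hw, h1⟩ := hπ x hx'
    refine stp_unique hw hx (h1.symm.trans ?_)
    rw [map_one, mul_one]
  · intro x hx
    exact (hπ x hx).1
  · intro q hq
    have hx' : EE q ∈ MP_52bd65_al.stp K := ⟨1, one_mem _, q, hq, by rw [one_mul]⟩
    refine ⟨EE q, hx', ?_⟩
    obtain ⟨_, w, hw, h1⟩ := hπ (EE q) hx'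
    refine stp_unique hw (one_mem _) (h1.symm.trans ?_)
    rw [one_mul]

/-- the tower over a given group -/
noncomputable def TT (H : Subgroup (ℚ ≃o ℚ)) : ℕ → Subgroup (ℚ ≃o ℚ)
  | 0 => H
  | n + 1 => MP_52bd65_al.stp (TT H n)

theorem Cls.TT (hP : Cls P) {H : Subgroup (ℚ ≃o ℚ)} (hH : P _ H) (n : ℕ) : P _ (TT H n) := by
  induction n with
  | zero => exact hH
  | succ n ih => exact hP.stp ih

theorem EE_TT {H : Subgroup (ℚ ≃o ℚ)} {n : ℕ} {g : ℚ ≃o ℚ} (hg : g ∈ TT H n) :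
    EE g ∈ TT H (n + 1) := ⟨1, one_mem _, g, hg, by rw [one_mul]⟩

theorem WH_TT {H : Subgroup (ℚ ≃o ℚ)} {n : ℕ} {w : ℚ ≃o ℚ} (hw : w ∈ MP_52bd65_al.WH) :
    w ∈ TT H (n + 1) := ⟨w, hw, 1, one_mem _, by rw [map_one, mul_one]⟩

theorem TT_trans (H : Subgroup (ℚ ≃o ℚ)) (N k : ℕ) : ∀ a b : Fin k → ℚ, StrictMono a →
    StrictMono b → ∃ g ∈ TT H (N + k), ∀ i, g (psi^[k] (a i)) = psi^[k] (b i) := by
  induction k with
  | zero =>
    intro a b _ _
    exact ⟨1, one_mem _, fun i => i.elim0⟩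
  | succ k ih =>
    intro a b ha hb
    obtain ⟨g, hg, hgab⟩ := ih (fun i => a i.succ) (fun i => b i.succ)
      (fun i j h => ha (Fin.succ_lt_succ_iff.2 h)) (fun i j h => hb (Fin.succ_lt_succ_iff.2 h))
    have hc : ∃ c : ℚ, g (psi^[k] (a 0)) < c ∧ psi^[k] (b 0) < c ∧
        ∀ i : Fin k, c ≤ psi^[k] (b i.succ) := by
      rcases k with _ | k
      · refine ⟨max (g (psi^[0] (a 0))) (psi^[0] (b 0)) + 1, ?_, ?_, fun i => i.elim0⟩
        · exact lt_of_le_of_lt (le_max_left _ _) (lt_add_one _)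
        · exact lt_of_le_of_lt (le_max_right _ _) (lt_add_one _)
      · have hps := psi_strictMono.iterate (k + 1)
        refine ⟨psi^[k + 1] (b (Fin.succ 0)), ?_, ?_, ?_⟩
        · rw [← hgab 0]
          exact g.strictMono (hps (ha (Fin.succ_pos 0)))
        · exact hps (hb (Fin.succ_pos 0))
        · intro i
          exact hps.monotone (hb.monotone (Fin.succ_le_succ_iff.2 (Fin.zero_le i)))
    obtain ⟨c, hc1, hc2, hc3⟩ := hc
    obtain ⟨s, hs1, hs2, hs3⟩ := local_WH _ _ c hc1 hc2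
    refine ⟨s * EE g, mul_mem (WH_TT hs1) (EE_TT hg), ?_⟩
    intro i
    show s (EE g (psi^[k + 1] (a i))) = psi^[k + 1] (b i)
    rw [Function.iterate_succ_apply', Function.iterate_succ_apply', EE_psi]
    refine Fin.cases ?_ ?_ i
    · exact hs2
    · intro j
      have h1 := hgab j
      rw [h1]
      exact hs3 _ (hc3 j)

end Pool.Agent.Lib.MP_52bd65_al.Ins
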